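import Mathlib
import Pool.Agent.Helper10.ZP.Three

/-!
# Linear inequalities between relative defects: products and division
-/

universe u v w t

open CategoryTheory TensorProduct Finset

namespace Pool.Agent.Helper10.P2

open Pool.Agent.Helper10 Pool.Agent.Helper11.Iso SmProjVar SPre Pool.Agent.Helper34.ZP
  Pool.Agent.Helper10.ZP

variable {k : Type u} [Field k] {K : Type t} [Field K] {Ω : Type v} [Field Ω] [Algebra K Ω]
  {P : SPre.{u, v, w, t} k K Ω}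

/-- **The Gram matrix of the three objects** `Y`, `(A × Y, e)`, `(B × Y, f)`: it is positive
semidefinite. -/
theorem gram_three [CharZero Ω] (A B Y : SmProjVar k) {e : P.H A →ₗ[Ω] P.H A}
    (he : e ∈ Mor P A A) (hee : e ∘ₗ e = e) {f : P.H B →ₗ[Ω] P.H B} (hf : f ∈ Mor P B B)
    (hff : f ∘ₗ f = f) :
    ∃ s11 s22 : ℤ,
      s11 ≤ (Module.finrank Ω (LinearMap.range e) : ℤ) * Module.finrank Ω (LinearMap.range e) *
        nr P (Y.prod Y) ∧
      s22 ≤ (Module.finrank Ω (LinearMap.range f) : ℤ) * Module.finrank Ω (LinearMap.range f) *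
        nr P (Y.prod Y) ∧
      ∀ a b c : ℤ, 0 ≤ a ^ 2 * nr P (Y.prod Y) + b ^ 2 * s11 + c ^ 2 * s22 +
        2 * a * b * rho P (tmap e (LinearMap.id : P.H (Y.prod Y) →ₗ[Ω] P.H (Y.prod Y))) +
        2 * a * c * rho P (tmap f (LinearMap.id : P.H (Y.prod Y) →ₗ[Ω] P.H (Y.prod Y))) +
        2 * b * c * rho P (tmap (tmap e f)
          (LinearMap.id : P.H (Y.prod Y) →ₗ[Ω] P.H (Y.prod Y))) := by
  have hea : adj e ∘ₗ adj e = adj e := by rw [← adj_comp, hee]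
  have hfa : adj f ∘ₗ adj f = adj f := by rw [← adj_comp, hff]
  have m1 := adj_mem_Mor he
  have m2 := adj_mem_Mor hf
  let Z : Fin 3 → SmProjVar k := ![Y, A.prod Y, B.prod Y]
  let g : ∀ i, P.H (Z i) →ₗ[Ω] P.H (Z i) :=
    Fin.cons (LinearMap.id : P.H Y →ₗ[Ω] P.H Y) (Fin.cons
      (tmap (adj e) (LinearMap.id : P.H Y →ₗ[Ω] P.H Y)) (Fin.cons
        (tmap f (LinearMap.id : P.H Y →ₗ[Ω] P.H Y)) (fun i => i.elim0)))
  have hg : ∀ i, g i ∈ Mor P (Z i) (Z i) := by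
    intro i
    match i with
    | 0 => exact isMap_id Y
    | 1 => exact tmap_mem_Mor m1 (isMap_id Y)
    | 2 => exact tmap_mem_Mor hf (isMap_id Y)
  have hgg : ∀ i, g i ∘ₗ g i = g i := by
    intro i
    match i with
    | 0 => exact LinearMap.comp_id _
    | 1 => exact tmap_idem hea (LinearMap.comp_id _)
    | 2 => exact tmap_idem hff (LinearMap.comp_id _)
  obtain ⟨Q, hQ, w, μ, h⟩ := exists_gram_rho Z g hg hgg
  have h00 : rho P (tmap (adj (LinearMap.id : P.H Y →ₗ[Ω] P.H Y))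
      (LinearMap.id : P.H Y →ₗ[Ω] P.H Y)) = ∑ c, w c * (μ 0 c * μ 0 c) := h 0 0
  have h10 : rho P (tmap (adj (tmap (adj e) (LinearMap.id : P.H Y →ₗ[Ω] P.H Y)))
      (LinearMap.id : P.H Y →ₗ[Ω] P.H Y)) = ∑ c, w c * (μ 1 c * μ 0 c) := h 1 0
  have h11 : rho P (tmap (adj (tmap (adj e) (LinearMap.id : P.H Y →ₗ[Ω] P.H Y)))
      (tmap (adj e) (LinearMap.id : P.H Y →ₗ[Ω] P.H Y))) = ∑ c, w c * (μ 1 c * μ 1 c) := h 1 1
  have h02 : rho P (tmap (adj (LinearMap.id : P.H Y →ₗ[Ω] P.H Y))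
      (tmap f (LinearMap.id : P.H Y →ₗ[Ω] P.H Y))) = ∑ c, w c * (μ 0 c * μ 2 c) := h 0 2
  have h12 : rho P (tmap (adj (tmap (adj e) (LinearMap.id : P.H Y →ₗ[Ω] P.H Y)))
      (tmap f (LinearMap.id : P.H Y →ₗ[Ω] P.H Y))) = ∑ c, w c * (μ 1 c * μ 2 c) := h 1 2
  have h22 : rho P (tmap (adj (tmap f (LinearMap.id : P.H Y →ₗ[Ω] P.H Y)))
      (tmap f (LinearMap.id : P.H Y →ₗ[Ω] P.H Y))) = ∑ c, w c * (μ 2 c * μ 2 c) := h 2 2
  rw [adj_id, tmap_id, rho_id] at h00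
  rw [adj_tmap m1 (isMap_id Y), adj_adj he, adj_id] at h10 h11 h12
  rw [adj_tmap hf (isMap_id Y), adj_id] at h22
  rw [rho_assoc] at h10
  rw [rho_four A Y A Y m1] at h11
  rw [adj_id, rho_mid B Y Y hf] at h02
  rw [rho_four A Y B Y hf] at h12
  rw [rho_four B Y B Y hf] at h22
  have b11 := rho_le (P := P) (A.prod A) Y (tmap_mem_Mor he m1) (tmap_idem hee hea)
  have b22 := rho_le (P := P) (B.prod B) Y (tmap_mem_Mor m2 hf) (tmap_idem hfa hff)
  rw [finrank_range_tmap, finrank_range_adj, h11] at b11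
  rw [finrank_range_tmap, finrank_range_adj, h22] at b22
  refine ⟨∑ c, (w c : ℤ) * ((μ 1 c : ℤ) * μ 1 c), ∑ c, (w c : ℤ) * ((μ 2 c : ℤ) * μ 2 c),
    by exact_mod_cast b11, by exact_mod_cast b22, fun a b d => ?_⟩
  have c00 : (nr P (Y.prod Y) : ℤ) = ∑ c, (w c : ℤ) * ((μ 0 c : ℤ) * μ 0 c) := by
    rw [h00]; push_cast; rfl
  have c10 : (rho P (tmap e (LinearMap.id : P.H (Y.prod Y) →ₗ[Ω] P.H (Y.prod Y))) : ℤ) =
      ∑ c, (w c : ℤ) * ((μ 1 c : ℤ) * μ 0 c) := by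
    rw [h10]; push_cast; rfl
  have c02 : (rho P (tmap f (LinearMap.id : P.H (Y.prod Y) →ₗ[Ω] P.H (Y.prod Y))) : ℤ) =
      ∑ c, (w c : ℤ) * ((μ 0 c : ℤ) * μ 2 c) := by
    rw [h02]; push_cast; rfl
  have c12 : (rho P (tmap (tmap e f)
      (LinearMap.id : P.H (Y.prod Y) →ₗ[Ω] P.H (Y.prod Y))) : ℤ) =
      ∑ c, (w c : ℤ) * ((μ 1 c : ℤ) * μ 2 c) := by
    rw [h12]; push_cast; rfl
  have hsq : 0 ≤ ∑ c, (w c : ℤ) * (a * μ 0 c + b * μ 1 c + d * μ 2 c) ^ 2 :=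
    Finset.sum_nonneg fun c _ => mul_nonneg (Int.natCast_nonneg _) (sq_nonneg _)
  refine hsq.trans (le_of_eq ?_)
  rw [c00, c10, c02, c12]
  simp only [Finset.mul_sum, ← Finset.sum_add_distrib]
  exact Finset.sum_congr rfl fun c _ => by ring

/-- the number inequality behind `lin_mul` -/
lemma num_mul {E G n x y z s t : ℤ} (hE : 0 ≤ E) (hG : 0 ≤ G) (hx : x ≤ E * n)
    (hy : y ≤ G * n) (hx0 : 0 ≤ x) (hy0 : 0 ≤ y) (hz0 : 0 ≤ z) (hs : s ≤ E * E * n)
    (ht : t ≤ G * G * n)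
    (h : ∀ a b c : ℤ, 0 ≤ a ^ 2 * n + b ^ 2 * s + c ^ 2 * t + 2 * a * b * x + 2 * a * c * y +
      2 * b * c * z) :
    E * G * n - z ≤ 3 * (G * (E * n - x) + E * (G * n - y)) := by
  have h1 : 0 ≤ G * (E * n - x) := mul_nonneg hG (by linarith)
  have h2 : 0 ≤ E * (G * n - y) := mul_nonneg hE (by linarith)
  rcases hE.eq_or_lt with rfl | hE'
  · linarith [mul_nonneg hG hx0]
  rcases hG.eq_or_lt with rfl | hG'
  · linarith [mul_nonneg hE hy0]
  have h3 := h (2 * (E * G)) (-G) (-E)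
  have h4 : G ^ 2 * s ≤ G ^ 2 * (E * E * n) := mul_le_mul_of_nonneg_left hs (sq_nonneg _)
  have h5 : E ^ 2 * t ≤ E ^ 2 * (G * G * n) := mul_le_mul_of_nonneg_left ht (sq_nonneg _)
  have h6 : (E * G) * (E * G * n - z) ≤
      (E * G) * (2 * (G * (E * n - x) + E * (G * n - y))) := by nlinarith
  have h7 := le_of_mul_le_mul_left h6 (mul_pos hE' hG')
  linarith

/-- the number inequality behind `lin_div` -/
lemma num_div {E G n x y z s t : ℤ} (hE : 0 ≤ E) (hG : 0 ≤ G)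
    (hy : y ≤ G * n) (hz : z ≤ E * G * n) (hx0 : 0 ≤ x) (hs : s ≤ E * E * n)
    (ht : t ≤ G * G * n)
    (h : ∀ a b c : ℤ, 0 ≤ a ^ 2 * n + b ^ 2 * s + c ^ 2 * t + 2 * a * b * x + 2 * a * c * y +
      2 * b * c * z) :
    G * (E * n - x) ≤ 3 * (E * G * n - z) + 2 * (E * (G * n - y)) := by
  have h2 : 0 ≤ E * (G * n - y) := mul_nonneg hE (by linarith)
  rcases hE.eq_or_lt with rfl | hE'
  · linarith [mul_nonneg hG hx0]
  rcases hG.eq_or_lt with rfl | hG'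
  · linarith
  have h3 := h (E * G) G (-(2 * E))
  have h4 : G ^ 2 * s ≤ G ^ 2 * (E * E * n) := mul_le_mul_of_nonneg_left hs (sq_nonneg _)
  have h5 : E ^ 2 * t ≤ E ^ 2 * (G * G * n) := mul_le_mul_of_nonneg_left ht (sq_nonneg _)
  have h6 : (E * G) * (G * (E * n - x)) ≤
      (E * G) * (2 * (E * G * n - z) + 2 * (E * (G * n - y))) := by nlinarith
  have h7 := le_of_mul_le_mul_left h6 (mul_pos hE' hG')
  linarith

/-- **The relative defect of a product** is at most three times the sum of the relative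
defects. -/
theorem lin_mul [CharZero Ω] (A B Y : SmProjVar k) {e : P.H A →ₗ[Ω] P.H A} (he : e ∈ Mor P A A)
    (hee : e ∘ₗ e = e) {f : P.H B →ₗ[Ω] P.H B} (hf : f ∈ Mor P B B) (hff : f ∘ₗ f = f) :
    ((Module.finrank Ω (LinearMap.range e) * Module.finrank Ω (LinearMap.range f) *
        nr P (Y.prod Y) : ℕ) : ℤ) -
        rho P (tmap (tmap e f) (LinearMap.id : P.H (Y.prod Y) →ₗ[Ω] P.H (Y.prod Y))) ≤
      3 * (Module.finrank Ω (LinearMap.range f) * (Module.finrank Ω (LinearMap.range e) *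
          nr P (Y.prod Y) - rho P (tmap e (LinearMap.id : P.H (Y.prod Y) →ₗ[Ω] P.H (Y.prod Y)))) +
        Module.finrank Ω (LinearMap.range e) * (Module.finrank Ω (LinearMap.range f) *
          nr P (Y.prod Y) - rho P (tmap f (LinearMap.id : P.H (Y.prod Y) →ₗ[Ω] P.H (Y.prod Y))))) := by
  obtain ⟨s, t, hs, ht, h⟩ := gram_three (P := P) A B Y he hee hf hff
  have bE := rho_le (P := P) A Y he hee
  have bF := rho_le (P := P) B Y hf hff
  rw [Nat.cast_mul, Nat.cast_mul]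
  exact num_mul (Int.natCast_nonneg _) (Int.natCast_nonneg _) (by exact_mod_cast bE)
    (by exact_mod_cast bF) (Int.natCast_nonneg _) (Int.natCast_nonneg _) (Int.natCast_nonneg _)
    hs ht h

/-- **Division**: the relative defect of a factor in terms of the product and the other
factor. -/
theorem lin_div [CharZero Ω] (A B Y : SmProjVar k) {e : P.H A →ₗ[Ω] P.H A} (he : e ∈ Mor P A A)
    (hee : e ∘ₗ e = e) {f : P.H B →ₗ[Ω] P.H B} (hf : f ∈ Mor P B B) (hff : f ∘ₗ f = f) :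
    (Module.finrank Ω (LinearMap.range f) : ℤ) * (Module.finrank Ω (LinearMap.range e) *
        nr P (Y.prod Y) - rho P (tmap e (LinearMap.id : P.H (Y.prod Y) →ₗ[Ω] P.H (Y.prod Y)))) ≤
      3 * (((Module.finrank Ω (LinearMap.range e) * Module.finrank Ω (LinearMap.range f) *
        nr P (Y.prod Y) : ℕ) : ℤ) -
        rho P (tmap (tmap e f) (LinearMap.id : P.H (Y.prod Y) →ₗ[Ω] P.H (Y.prod Y)))) +
      2 * (Module.finrank Ω (LinearMap.range e) * (Module.finrank Ω (LinearMap.range f) *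
          nr P (Y.prod Y) - rho P (tmap f (LinearMap.id : P.H (Y.prod Y) →ₗ[Ω] P.H (Y.prod Y))))) := by
  obtain ⟨s, t, hs, ht, h⟩ := gram_three (P := P) A B Y he hee hf hff
  have bF := rho_le (P := P) B Y hf hff
  have bEF := rho_le (P := P) (A.prod B) Y (tmap_mem_Mor he hf) (tmap_idem hee hff)
  rw [finrank_range_tmap] at bEF
  rw [Nat.cast_mul, Nat.cast_mul]
  exact num_div (Int.natCast_nonneg _) (Int.natCast_nonneg _) (by exact_mod_cast bF)
    (by exact_mod_cast bEF) (Int.natCast_nonneg _) hs ht h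

end Pool.Agent.Helper10.P2
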